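import Pool.Agent.H617R3.AP.Scale

/-!
# Progressions in dense sets: the averaging argument over rough differences
-/

set_option autoImplicit false

open Finset

namespace Run7.h605.Var

open Pool.Agent.H617R3.AP

/-- the progressions `a, a + d, ..., a + (k - 1) d` in `A`, as pairs `(a, d)` -/
def AP (k : ℕ) (A : Finset ℕ) : Finset (ℕ × ℕ) :=
  (A ×ˢ (range (A.sup id + 1))).filter (fun p => 1 ≤ p.2 ∧ ∀ i < k, p.1 + i * p.2 ∈ A)

theorem mem_AP {k : ℕ} (hk : 2 ≤ k) {A : Finset ℕ} {p : ℕ × ℕ} :
    p ∈ AP k A ↔ 1 ≤ p.2 ∧ ∀ i < k, p.1 + i * p.2 ∈ A := by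
  unfold AP
  rw [mem_filter, mem_product, mem_range]
  constructor
  · exact fun h => h.2
  · intro h
    refine ⟨⟨by simpa using h.2 0 (by omega), ?_⟩, h⟩
    have := h.2 1 (by omega)
    have h2 : p.1 + 1 * p.2 ≤ A.sup id := Finset.le_sup (f := id) this
    omega

/-- a set with many more elements than a progression free set contains many progressions -/
theorem card_le_add {k : ℕ} (hk : 2 ≤ k) {M : ℕ} : ∀ (n : ℕ) (F : Finset ℕ), F.card = n →
    F ⊆ Icc 1 M → F.card ≤ r k M + (AP k F).card := by
  intro n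
  induction n with
  | zero => intro F h _; omega
  | succ n ih =>
    intro F hF hM
    by_cases hfree : APFree k F
    · have := card_le_r hM hfree
      omega
    · unfold APFree at hfree
      push Not at hfree
      obtain ⟨a, d, hd, h⟩ := hfree
      have ha : a ∈ F := by simpa using h 0 (by omega)
      have h1 : (F.erase a).card = n := by
        rw [card_erase_of_mem ha]; omega
      have h2 := ih (F.erase a) h1 ((erase_subset _ _).trans hM)
      have h3 : AP k (F.erase a) ⊆ (AP k F).erase (a, d) := by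
        intro p hp
        rw [mem_AP hk] at hp
        rw [mem_erase, mem_AP hk]
        refine ⟨fun h4 => ?_, hp.1, fun i hi => mem_of_mem_erase (hp.2 i hi)⟩
        have h5 := hp.2 0 (by omega)
        rw [h4] at h5
        simp at h5
      have h4 : (a, d) ∈ AP k F := (mem_AP hk).2 ⟨hd, h⟩
      have h5 := card_le_card h3
      rw [card_erase_of_mem h4] at h5
      have h6 : 0 < (AP k F).card := card_pos.2 ⟨_, h4⟩
      omega

/-- the averaging argument -/
theorem core {k : ℕ} (hk : 2 ≤ k) {M Q N : ℕ} {A : Finset ℕ} (hA : A ⊆ Ioc (Q * M) (N + Q * M))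
    {S : Finset ℕ} (hS1 : ∀ q ∈ S, 1 ≤ q ∧ q ≤ Q)
    (hS : ∀ q ∈ S, ∀ q' ∈ S, ∀ j j' : ℕ, 1 ≤ j → j < M → 1 ≤ j' → j' < M →
      q * j = q' * j' → q = q') :
    S.card * (M * A.card) ≤ M * (AP k A).card + S.card * ((N + Q * M) * r k M) := by
  classical
  set F : ℕ → ℕ → Finset ℕ := fun q y => (Icc 1 M).filter (fun i => y + q * i ∈ A) with hF
  have h1 : ∀ q ∈ S, M * A.card ≤ ∑ y ∈ range (N + Q * M), (F q y).card := by
    intro q hq
    have e := sum_card_bipartiteAbove_eq_sum_card_bipartiteBelow
      (s := range (N + Q * M)) (t := Icc 1 M) (fun y i => y + q * i ∈ A)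
    unfold bipartiteAbove bipartiteBelow at e
    rw [hF]
    simp only
    rw [e]
    calc M * A.card = ∑ i ∈ Icc 1 M, A.card := by
          rw [sum_const, Nat.card_Icc, smul_eq_mul]; simp
      _ ≤ _ := by
          refine sum_le_sum fun i hi => ?_
          rw [mem_Icc] at hi
          have hqi : q * i ≤ Q * M := Nat.mul_le_mul (hS1 q hq).2 hi.2
          have hqi1 : 1 ≤ q * i := Nat.mul_pos (hS1 q hq).1 hi.1
          refine card_le_card_of_injOn (fun a => a - q * i) ?_ ?_
          · intro a ha
            have h2 := hA ha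
            rw [mem_Ioc] at h2
            simp only [coe_filter, mem_range, Set.mem_ofPred_eq]
            constructor
            · omega
            · have : a - q * i + q * i = a := by omega
              rw [this]; exact ha
          · intro a ha b hb hab
            have h2 := hA ha
            have h3 := hA hb
            rw [mem_Ioc] at h2 h3
            simp only at hab
            omega
  have h2 : ∑ q ∈ S, ∑ y ∈ range (N + Q * M), (AP k (F q y)).card ≤ M * (AP k A).card := by
    set X : Finset (Σ _ : ℕ × ℕ, ℕ × ℕ) :=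
      (S ×ˢ range (N + Q * M)).sigma (fun p => AP k (F p.1 p.2)) with hX
    have e : ∑ q ∈ S, ∑ y ∈ range (N + Q * M), (AP k (F q y)).card = X.card := by
      rw [hX, card_sigma, sum_product]
    rw [e]
    have hmem : ∀ x ∈ X, x.1.1 ∈ S ∧ 1 ≤ x.2.2 ∧ ∀ i < k, (1 ≤ x.2.1 + i * x.2.2 ∧
        x.2.1 + i * x.2.2 ≤ M) ∧ x.1.2 + x.1.1 * (x.2.1 + i * x.2.2) ∈ A := by
      intro x hx
      rw [hX, mem_sigma, mem_product, mem_AP hk] at hx
      refine ⟨hx.1.1, hx.2.1, fun i hi => ?_⟩
      have h3 := hx.2.2 i hi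
      rw [hF] at h3
      simp only [mem_filter, mem_Icc] at h3
      exact h3
    refine card_le_mul_card_image_of_maps_to
      (f := fun x : (Σ _ : ℕ × ℕ, ℕ × ℕ) => (x.1.2 + x.1.1 * x.2.1, x.1.1 * x.2.2)) ?_ M ?_
    · intro x hx
      obtain ⟨h3, h4, h5⟩ := hmem x hx
      rw [mem_AP hk]
      refine ⟨Nat.mul_pos (hS1 _ h3).1 h4, fun i hi => ?_⟩
      have h6 := (h5 i hi).2
      have e2 : x.1.2 + x.1.1 * x.2.1 + i * (x.1.1 * x.2.2) =
          x.1.2 + x.1.1 * (x.2.1 + i * x.2.2) := by ring
      simp only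
      rw [e2]; exact h6
    · intro b _
      have hc : (Icc 1 M).card = M := by simp
      rw [← hc]
      refine card_le_card_of_injOn (fun x => x.2.1) ?_ ?_
      · intro x hx
        have hx' : x ∈ X := (mem_filter.1 hx).1
        obtain ⟨-, -, h5⟩ := hmem x hx'
        have h6 := (h5 0 (by omega)).1
        simp only [coe_Icc, Set.mem_Icc]
        simpa using h6
      · intro x hx x' hx' hxx
        have hx1 := mem_filter.1 hx
        have hx1' := mem_filter.1 hx'
        obtain ⟨h3, h4, h5⟩ := hmem x hx1.1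
        obtain ⟨h3', h4', h5'⟩ := hmem x' hx1'.1
        have h6 := (h5 0 (by omega)).1
        have h6' := (h5' 0 (by omega)).1
        have h7 := (h5 1 (by omega)).1
        have h7' := (h5' 1 (by omega)).1
        have e1 := hx1.2
        have e1' := hx1'.2
        rw [← e1'] at e1
        simp only [Prod.mk.injEq] at e1 hxx
        obtain ⟨e2, e3⟩ := e1
        have hq : x.1.1 = x'.1.1 := hS _ h3 _ h3' x.2.2 x'.2.2 h4 (by omega) h4' (by omega) e3
        have hj : x.2.2 = x'.2.2 := by
          rw [← hq] at e3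
          exact Nat.eq_of_mul_eq_mul_left (hS1 _ h3).1 e3
        have hy : x.1.2 = x'.1.2 := by
          rw [← hq, ← hxx] at e2
          omega
        obtain ⟨⟨q, y⟩, ⟨i, j⟩⟩ := x
        obtain ⟨⟨q', y'⟩, ⟨i', j'⟩⟩ := x'
        simp only at hq hj hy hxx
        subst hq hj hy hxx
        rfl
  have h3 : ∀ q ∈ S, M * A.card ≤
      (N + Q * M) * r k M + ∑ y ∈ range (N + Q * M), (AP k (F q y)).card := by
    intro q hq
    refine (h1 q hq).trans ?_
    calc ∑ y ∈ range (N + Q * M), (F q y).card
        ≤ ∑ y ∈ range (N + Q * M), (r k M + (AP k (F q y)).card) :=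
          sum_le_sum fun y _ => card_le_add hk _ (F q y) rfl (filter_subset _ _)
      _ = _ := by rw [sum_add_distrib, sum_const, card_range, smul_eq_mul]
  calc S.card * (M * A.card) = ∑ q ∈ S, M * A.card := by rw [sum_const, smul_eq_mul]
    _ ≤ ∑ q ∈ S, ((N + Q * M) * r k M + ∑ y ∈ range (N + Q * M), (AP k (F q y)).card) :=
        sum_le_sum h3
    _ = S.card * ((N + Q * M) * r k M) +
          ∑ q ∈ S, ∑ y ∈ range (N + Q * M), (AP k (F q y)).card := by
        rw [sum_add_distrib, sum_const, smul_eq_mul]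
    _ ≤ _ := by omega

end Run7.h605.Var
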