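import Mathlib

/-!
# Asymptotics: the density of progression free sets and the Varnavides function
-/

set_option autoImplicit false

open Filter Topology

namespace Run7.h605.Var

theorem ceil_exp {y : ℝ} (hy : 0 ≤ y) :
    y ≤ Real.log (⌈Real.exp y⌉₊ : ℝ) ∧ Real.log (⌈Real.exp y⌉₊ : ℝ) ≤ y + 1 := by
  have h1 : Real.exp y ≤ (⌈Real.exp y⌉₊ : ℝ) := Nat.le_ceil _
  have h2 : (⌈Real.exp y⌉₊ : ℝ) < Real.exp y + 1 := Nat.ceil_lt_add_one (Real.exp_pos _).le
  have h3 : 1 ≤ Real.exp y := Real.one_le_exp hy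
  have h4 : 0 < (⌈Real.exp y⌉₊ : ℝ) := by linarith
  constructor
  · rw [Real.le_log_iff_exp_le h4]; exact h1
  · rw [Real.log_le_iff_le_exp h4, Real.exp_add]
    have := Real.add_one_le_exp (1 : ℝ)
    nlinarith [Real.exp_pos y]

/-- the number with logarithm about `s x ^ (1 / β)` -/
noncomputable def Ms (β s x : ℝ) : ℕ := ⌈Real.exp (s * x ^ (1 / β))⌉₊

theorem pow_tendsto {β : ℝ} (hβ : 0 < β) : Tendsto (fun x : ℝ => x ^ (1 / β)) atTop atTop :=
  tendsto_rpow_atTop (by positivity)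

theorem Ms_tendsto {β s : ℝ} (hβ : 0 < β) (hs : 0 < s) : Tendsto (Ms β s) atTop atTop := by
  unfold Ms
  refine tendsto_nat_ceil_atTop.comp (Real.tendsto_exp_atTop.comp ?_)
  exact (pow_tendsto hβ).const_mul_atTop hs

theorem Ms_log {β s : ℝ} (hβ : 0 < β) (hs : 0 < s) :
    Tendsto (fun x : ℝ => Real.log (Ms β s x : ℝ) / x ^ (1 / β)) atTop (𝓝 s) := by
  have h1 : Tendsto (fun x : ℝ => s + 1 / x ^ (1 / β)) atTop (𝓝 s) := by
    have := (tendsto_inv_atTop_zero.comp (pow_tendsto hβ)).const_add s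
    simpa [Function.comp_def] using this
  refine tendsto_of_tendsto_of_tendsto_of_le_of_le' tendsto_const_nhds h1 ?_ ?_
  · filter_upwards [(pow_tendsto hβ).eventually_gt_atTop 0] with x hx
    rw [le_div_iff₀ hx]
    exact (ceil_exp (by positivity)).1
  · filter_upwards [(pow_tendsto hβ).eventually_gt_atTop 0] with x hx
    rw [div_le_iff₀ hx]
    have := (ceil_exp (y := s * x ^ (1 / β)) (by positivity)).2
    unfold Ms
    refine this.trans (le_of_eq ?_)
    field_simp

theorem Ms_E {β s c : ℝ} (hβ : 0 < β) (hs : 0 < s) {E : ℕ → ℝ}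
    (hE : Tendsto (fun M : ℕ => E M / (Real.log M) ^ β) atTop (𝓝 c)) :
    Tendsto (fun x : ℝ => E (Ms β s x) / x) atTop (𝓝 (c * s ^ β)) := by
  have h1 := hE.comp (Ms_tendsto hβ hs)
  have h2 : Tendsto (fun x : ℝ => (Real.log (Ms β s x : ℝ) / x ^ (1 / β)) ^ β) atTop
      (𝓝 (s ^ β)) := (Ms_log hβ hs).rpow_const (Or.inl hs.ne')
  refine (h1.mul h2).congr' ?_
  have h3 : Tendsto (fun x : ℝ => Real.log (Ms β s x : ℝ)) atTop atTop :=
    Real.tendsto_log_atTop.comp (tendsto_natCast_atTop_atTop.comp (Ms_tendsto hβ hs))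
  filter_upwards [eventually_gt_atTop 0, h3.eventually_gt_atTop 0] with x hx hL
  simp only [Function.comp_apply]
  have hx1 : 0 < x ^ (1 / β) := Real.rpow_pos_of_pos hx _
  rw [Real.div_rpow hL.le hx1.le, ← Real.rpow_mul hx.le, one_div_mul_cancel hβ.ne',
    Real.rpow_one]
  have h4 : (Real.log (Ms β s x : ℝ)) ^ β ≠ 0 := (Real.rpow_pos_of_pos hL _).ne'
  field_simp

/-- the error function in the upper bound -/
noncomputable def G (c₀ : ℝ) (M : ℕ) : ℝ :=
  4 * √(Real.log M) + Real.log M + Real.log (Real.log M) - Real.log c₀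

theorem G_div (c₀ : ℝ) : Tendsto (fun M : ℕ => G c₀ M / Real.log M) atTop (𝓝 1) := by
  have hlog : Tendsto (fun M : ℕ => Real.log (M : ℝ)) atTop atTop :=
    Real.tendsto_log_atTop.comp tendsto_natCast_atTop_atTop
  have h1 : Tendsto (fun x : ℝ => √x / x) atTop (𝓝 0) := by
    have h2 : Tendsto (fun x : ℝ => (√x)⁻¹) atTop (𝓝 0) :=
      tendsto_inv_atTop_zero.comp Real.tendsto_sqrt_atTop
    refine h2.congr' ?_
    filter_upwards [eventually_gt_atTop 0] with x hx
    have h3 : √x * √x = x := Real.mul_self_sqrt hx.le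
    have h4 : √x ≠ 0 := (Real.sqrt_pos.2 hx).ne'
    rw [eq_div_iff hx.ne', inv_mul_eq_div, div_eq_iff h4]
    exact h3.symm
  have h2 : Tendsto (fun x : ℝ => Real.log x / x) atTop (𝓝 0) :=
    Real.isLittleO_log_id_atTop.tendsto_div_nhds_zero
  have h3 : Tendsto (fun x : ℝ => Real.log c₀ / x) atTop (𝓝 0) :=
    tendsto_const_nhds.div_atTop tendsto_id
  have h4 : Tendsto (fun x : ℝ => 4 * (√x / x) + 1 + Real.log x / x - Real.log c₀ / x) atTop
      (𝓝 (4 * 0 + 1 + 0 - 0)) := (((h1.const_mul 4).add_const 1).add h2).sub h3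
  have h5 := h4.comp hlog
  rw [show (4 * 0 + 1 + 0 - 0 : ℝ) = 1 by norm_num] at h5
  refine h5.congr' ?_
  filter_upwards [hlog.eventually_gt_atTop 0] with M hM
  simp only [Function.comp_apply, G]
  field_simp

theorem rpow_inv_kappa {β c : ℝ} (hβ : 0 < β) (hc : 0 < c) :
    c * ((1 / c) ^ (1 / β)) ^ β = 1 := by
  rw [← Real.rpow_mul (by positivity), one_div_mul_cancel hβ.ne', Real.rpow_one]
  field_simp

section

variable {δ : ℕ → ℝ} {V : ℝ → ℝ} {c₀ : ℝ}

theorem W_le (hδ0 : ∀ M : ℕ, 1 ≤ M → 0 < δ M)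
    (hB : ∀ M : ℕ, 1 ≤ M → Real.log (1 / δ M) ≤ 4 * √(Real.log M)) (hc₀ : 0 < c₀)
    (h1 : ∀ M : ℕ, 2 ≤ M → ∀ α : ℝ, 2 * δ M ≤ α → α ≤ 1 →
      c₀ * δ M / (M * Real.log M) ≤ V α)
    {M : ℕ} (hM : 2 ≤ M) {α : ℝ} (hα : 2 * δ M ≤ α) (hα1 : α ≤ 1) :
    0 < V α ∧ Real.log (1 / V α) ≤ G c₀ M := by
  have hMr : (2 : ℝ) ≤ M := by exact_mod_cast hM
  have hlog : 0 < Real.log M := Real.log_pos (by linarith)
  have hd := hδ0 M (by omega)
  have h2 := h1 M hM α hα hα1
  have h3 : 0 < c₀ * δ M / (M * Real.log M) := by positivity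
  have h4 : 0 < V α := lt_of_lt_of_le h3 h2
  refine ⟨h4, ?_⟩
  have h5 := Real.log_le_log h3 h2
  rw [Real.log_div (by positivity) (by positivity), Real.log_mul hc₀.ne' hd.ne',
    Real.log_mul (by positivity) hlog.ne'] at h5
  have h6 := hB M (by omega)
  rw [one_div, Real.log_inv] at h6 ⊢
  unfold G
  linarith

theorem W_ge (hδ1 : ∀ M : ℕ, δ M ≤ 1)
    (h2 : ∀ M : ℕ, 2 ≤ M → ∀ α : ℝ, α ≤ δ M / 3 → V α ≤ δ M / (2 * M))
    {M : ℕ} (hM : 2 ≤ M) {α : ℝ} (hα : α ≤ δ M / 3) (hV : 0 < V α) :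
    Real.log M ≤ Real.log (1 / V α) := by
  have hMr : (2 : ℝ) ≤ M := by exact_mod_cast hM
  have h3 := h2 M hM α hα
  apply Real.log_le_log (by linarith)
  rw [le_div_iff₀ hV]
  have h4 : δ M / (2 * M) ≤ 1 / M := by
    rw [div_le_div_iff₀ (by positivity) (by linarith)]
    have := hδ1 M
    nlinarith
  have h5 : V α ≤ 1 / M := h3.trans h4
  rw [le_div_iff₀ (by linarith)] at h5
  linarith

theorem equiv (hδ0 : ∀ M : ℕ, 1 ≤ M → 0 < δ M) (hδ1 : ∀ M : ℕ, δ M ≤ 1)
    (hB : ∀ M : ℕ, 1 ≤ M → Real.log (1 / δ M) ≤ 4 * √(Real.log M)) (hc₀ : 0 < c₀)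
    (hV0 : ∀ α, 0 ≤ V α)
    (h1 : ∀ M : ℕ, 2 ≤ M → ∀ α : ℝ, 2 * δ M ≤ α → α ≤ 1 →
      c₀ * δ M / (M * Real.log M) ≤ V α)
    (h2 : ∀ M : ℕ, 2 ≤ M → ∀ α : ℝ, α ≤ δ M / 3 → V α ≤ δ M / (2 * M))
    {β c : ℝ} (hβ : 0 < β) (hc : 0 < c) :
    Tendsto (fun M : ℕ => Real.log (1 / δ M) / (Real.log M) ^ β) atTop (𝓝 c) ↔
      Tendsto (fun α : ℝ => Real.log (1 / V α) / (Real.log (1 / α)) ^ (1 / β)) (𝓝[>] 0)
        (𝓝 ((1 / c) ^ (1 / β))) := by
  set κ : ℝ := (1 / c) ^ (1 / β) with hκ
  have hκ0 : 0 < κ := Real.rpow_pos_of_pos (by positivity) _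
  have hκ1 : c * κ ^ β = 1 := rpow_inv_kappa hβ hc
  have hx : Tendsto (fun α : ℝ => Real.log (1 / α)) (𝓝[>] 0) atTop := by
    have : Tendsto (fun α : ℝ => 1 / α) (𝓝[>] 0) atTop := by
      simpa [one_div] using tendsto_inv_nhdsGT_zero
    exact Real.tendsto_log_atTop.comp this
  have hlogM : Tendsto (fun M : ℕ => Real.log (M : ℝ)) atTop atTop :=
    Real.tendsto_log_atTop.comp tendsto_natCast_atTop_atTop
  have hαpos : ∀ᶠ α : ℝ in 𝓝[>] 0, 0 < α := self_mem_nhdsWithin
  have hα1 : ∀ᶠ α : ℝ in 𝓝[>] 0, α ≤ 1 := by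
    filter_upwards [Ioc_mem_nhdsGT (zero_lt_one' ℝ)] with α hα using hα.2
  constructor
  · intro hE
    -- the upper bound
    have hup : ∀ s : ℝ, κ < s → ∀ᶠ α : ℝ in 𝓝[>] 0, 0 < V α ∧
        Real.log (1 / V α) ≤ G c₀ (Ms β s (Real.log (1 / α))) := by
      intro s hs
      have hs0 : 0 < s := hκ0.trans hs
      have h3 := Ms_E hβ hs0 hE
      have h4 : 1 < c * s ^ β := by
        rw [← hκ1]
        exact mul_lt_mul_of_pos_left (Real.rpow_lt_rpow hκ0.le hs hβ) hc
      obtain ⟨θ, hθ1, hθ2⟩ := exists_between h4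
      have h5 : ∀ᶠ x : ℝ in atTop, θ < Real.log (1 / δ (Ms β s x)) / x :=
        h3.eventually (lt_mem_nhds hθ2)
      have h6 : ∀ᶠ x : ℝ in atTop, Real.log 2 / (θ - 1) ≤ x := eventually_ge_atTop _
      have h7 := (Ms_tendsto hβ hs0).eventually_ge_atTop 2
      filter_upwards [hx.eventually h5, hx.eventually h6, hx.eventually h7,
        hx.eventually (eventually_gt_atTop 0), hαpos, hα1] with α h5 h6 h7 h8 h9 h10
      refine W_le hδ0 hB hc₀ h1 h7 ?_ h10
      rw [lt_div_iff₀ h8] at h5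
      rw [div_le_iff₀ (by linarith)] at h6
      have hd := hδ0 (Ms β s (Real.log (1 / α))) (by omega)
      have h11 : Real.log 2 + Real.log (δ (Ms β s (Real.log (1 / α)))) ≤ Real.log α := by
        rw [one_div (δ _), Real.log_inv] at h5
        have e : Real.log (1 / α) = -Real.log α := by rw [one_div, Real.log_inv]
        nlinarith
      rw [← Real.log_mul (by norm_num) hd.ne'] at h11
      exact (Real.log_le_log_iff (by positivity) h9).1 h11
    rw [tendsto_order]
    constructor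
    · intro a ha
      obtain ⟨s, hs1, hs2⟩ := exists_between (max_lt ha hκ0)
      have hs0 : 0 < s := lt_of_le_of_lt (le_max_right _ _) hs1
      have hsa : a < s := lt_of_le_of_lt (le_max_left _ _) hs1
      have h3 := Ms_E hβ hs0 hE
      have h4 : c * s ^ β < 1 := by
        rw [← hκ1]
        exact mul_lt_mul_of_pos_left (Real.rpow_lt_rpow hs0.le hs2 hβ) hc
      obtain ⟨θ, hθ1, hθ2⟩ := exists_between h4
      have h5 : ∀ᶠ x : ℝ in atTop, Real.log (1 / δ (Ms β s x)) / x < θ :=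
        h3.eventually (gt_mem_nhds hθ1)
      have h6 : ∀ᶠ x : ℝ in atTop, Real.log 3 / (1 - θ) ≤ x := eventually_ge_atTop _
      have h7 := (Ms_tendsto hβ hs0).eventually_ge_atTop 2
      have h8 : ∀ᶠ x : ℝ in atTop, a < Real.log (Ms β s x : ℝ) / x ^ (1 / β) :=
        (Ms_log hβ hs0).eventually (lt_mem_nhds hsa)
      filter_upwards [hx.eventually h5, hx.eventually h6, hx.eventually h7, hx.eventually h8,
        hx.eventually (eventually_gt_atTop 0), hαpos, hup (κ + 1) (by linarith)] with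
        α h5 h6 h7 h8 h9 h10 h11
      refine lt_of_lt_of_le h8 ?_
      have hpow : 0 < Real.log (1 / α) ^ (1 / β) := Real.rpow_pos_of_pos h9 _
      apply div_le_div_of_nonneg_right _ hpow.le
      refine W_ge hδ1 h2 h7 ?_ h11.1
      rw [div_lt_iff₀ h9] at h5
      rw [div_le_iff₀ (by linarith)] at h6
      have hd := hδ0 (Ms β s (Real.log (1 / α))) (by omega)
      have h12 : Real.log α + Real.log 3 ≤ Real.log (δ (Ms β s (Real.log (1 / α)))) := by
        rw [one_div (δ _), Real.log_inv] at h5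
        have e : Real.log (1 / α) = -Real.log α := by rw [one_div, Real.log_inv]
        nlinarith
      rw [← Real.log_mul h10.ne' (by norm_num)] at h12
      have h13 := (Real.log_le_log_iff (by positivity) hd).1 h12
      linarith
    · intro a ha
      obtain ⟨s, hs1, hs2⟩ := exists_between ha
      have hs0 : 0 < s := hκ0.trans hs1
      have h3 : Tendsto (fun x : ℝ => G c₀ (Ms β s x) / Real.log (Ms β s x : ℝ) *
          (Real.log (Ms β s x : ℝ) / x ^ (1 / β))) atTop (𝓝 (1 * s)) :=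
        ((G_div c₀).comp (Ms_tendsto hβ hs0)).mul (Ms_log hβ hs0)
      rw [one_mul] at h3
      have h4 := h3.eventually (gt_mem_nhds hs2)
      have h5 : Tendsto (fun x : ℝ => Real.log (Ms β s x : ℝ)) atTop atTop :=
        hlogM.comp (Ms_tendsto hβ hs0)
      filter_upwards [hx.eventually h4, hx.eventually (h5.eventually_gt_atTop 0), hup s hs1,
        hx.eventually (eventually_gt_atTop 0)] with α h6 h7 h8 h9
      have hpow : 0 < Real.log (1 / α) ^ (1 / β) := Real.rpow_pos_of_pos h9 _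
      refine lt_of_le_of_lt (div_le_div_of_nonneg_right h8.2 hpow.le) ?_
      refine lt_of_eq_of_lt ?_ h6
      field_simp
  · intro hW
    -- positivity of `V` near `0`
    have hVpos : ∀ᶠ α : ℝ in 𝓝[>] 0, 0 < V α := by
      filter_upwards [hW.eventually (lt_mem_nhds hκ0), hx.eventually (eventually_gt_atTop 0)]
        with α h3 h4
      rcases (hV0 α).lt_or_eq with h5 | h5
      · exact h5
      · rw [← h5] at h3
        simp at h3
    have hδ : Tendsto δ atTop (𝓝 0) := by
      obtain ⟨u, hu, hu2⟩ : ∃ u : ℝ, 0 < u ∧ ∀ α : ℝ, 0 < α → α < u → 0 < V α := by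
        rw [eventually_nhdsWithin_iff, Metric.eventually_nhds_iff] at hVpos
        obtain ⟨u, hu, h⟩ := hVpos
        refine ⟨u, hu, fun α h3 h4 => h (y := α) ?_ h3⟩
        rw [Real.dist_eq, sub_zero, abs_of_pos h3]; exact h4
      rw [tendsto_order]
      constructor
      · intro a ha
        filter_upwards [eventually_ge_atTop 1] with M hM
        exact ha.trans (hδ0 M hM)
      · intro a ha
        set η : ℝ := min a u with hη
        have hη0 : 0 < η := lt_min ha hu
        have hVη : 0 < V (η / 3) := hu2 _ (by positivity) (by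
          have : η ≤ u := min_le_right _ _
          linarith)
        filter_upwards [eventually_ge_atTop 2,
          tendsto_natCast_atTop_atTop.eventually_gt_atTop (1 / V (η / 3))] with M hM hM2
        by_contra hcon
        have h3 : η ≤ δ M := (min_le_left _ _).trans (not_lt.1 hcon)
        have h4 := h2 M hM (η / 3) (by linarith)
        have hMr : (2 : ℝ) ≤ M := by exact_mod_cast hM
        have h5 := hδ1 M
        rw [le_div_iff₀ (by linarith)] at h4
        rw [div_lt_iff₀ hVη] at hM2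
        nlinarith
    have hδw : Tendsto δ atTop (𝓝[>] 0) := by
      rw [tendsto_nhdsWithin_iff]
      refine ⟨hδ, ?_⟩
      filter_upwards [eventually_ge_atTop 1] with M hM using hδ0 M hM
    have hscale : ∀ t : ℝ, 0 < t → Tendsto (fun M => t * δ M) atTop (𝓝[>] 0) := by
      intro t ht
      rw [tendsto_nhdsWithin_iff]
      constructor
      · simpa using hδ.const_mul t
      · filter_upwards [eventually_ge_atTop 1] with M hM using mul_pos ht (hδ0 M hM)
    have hEinf : Tendsto (fun M => Real.log (1 / δ M)) atTop atTop := hx.comp hδw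
    have hpowM : Tendsto (fun M : ℕ => (Real.log (M : ℝ)) ^ β) atTop atTop :=
      (tendsto_rpow_atTop hβ).comp hlogM
    have hκc : κ⁻¹ ^ β = c := by
      rw [Real.inv_rpow hκ0.le]
      have : κ ^ β ≠ 0 := (Real.rpow_pos_of_pos hκ0 _).ne'
      field_simp
      linarith
    rw [tendsto_order]
    constructor
    · intro a ha
      -- choose κ' > κ with κ' ^ (-β) > a
      have hcont : Tendsto (fun s : ℝ => s⁻¹ ^ β) (𝓝[>] κ) (𝓝 c) := by
        rw [← hκc]
        exact (((continuousAt_inv₀ hκ0.ne').tendsto).rpow_const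
          (Or.inl (inv_pos.2 hκ0).ne')).mono_left nhdsWithin_le_nhds
      obtain ⟨s, hs1, hs2⟩ := ((hcont.eventually (lt_mem_nhds ha)).and
        self_mem_nhdsWithin).exists
      have hs2' : κ < s := hs2
      have hs0 : 0 < s := hκ0.trans hs2'
      have h3 := (hW.comp (hscale (1 / 3) (by norm_num))).eventually (gt_mem_nhds hs2')
      have h4 := (hscale (1 / 3) (by norm_num)).eventually hVpos
      have h5 : Tendsto (fun M : ℕ => s⁻¹ ^ β - Real.log 3 / (Real.log (M : ℝ)) ^ β) atTop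
          (𝓝 (s⁻¹ ^ β - 0)) := tendsto_const_nhds.sub (tendsto_const_nhds.div_atTop hpowM)
      rw [sub_zero] at h5
      filter_upwards [h3, h4, h5.eventually (lt_mem_nhds hs1), eventually_ge_atTop 2,
        hlogM.eventually_gt_atTop 0, hpowM.eventually_gt_atTop 0,
        hEinf.eventually_gt_atTop 0] with M h3 h4 h5 h6 h7 h8 h9
      simp only [Function.comp_apply] at h3
      have hd := hδ0 M (by omega)
      have e : Real.log (1 / (1 / 3 * δ M)) = Real.log (1 / δ M) + Real.log 3 := by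
        rw [← Real.log_mul (by positivity) (by norm_num)]
        congr 1
        field_simp
      have hW1 := W_ge hδ1 h2 h6 (α := 1 / 3 * δ M) (by linarith) h4
      have hl3 : 0 < Real.log 3 := Real.log_pos (by norm_num)
      have hpos : 0 < Real.log (1 / δ M) + Real.log 3 := by linarith
      rw [e, div_lt_iff₀ (Real.rpow_pos_of_pos hpos _)] at h3
      have h10 : s⁻¹ * Real.log M ≤ (Real.log (1 / δ M) + Real.log 3) ^ (1 / β) := by
        rw [inv_mul_le_iff₀ hs0]
        linarith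
      have h11 : (s⁻¹ * Real.log M) ^ β ≤ Real.log (1 / δ M) + Real.log 3 := by
        have := Real.rpow_le_rpow (by positivity) h10 hβ.le
        rwa [← Real.rpow_mul hpos.le, one_div_mul_cancel hβ.ne', Real.rpow_one] at this
      rw [Real.mul_rpow (by positivity) h7.le] at h11
      refine lt_of_lt_of_le h5 ?_
      rw [le_div_iff₀ h8, sub_mul, div_mul_cancel₀ _ h8.ne']
      linarith
    · intro a ha
      have hcont : Tendsto (fun s : ℝ => s⁻¹ ^ β) (𝓝[<] κ) (𝓝 c) := by
        rw [← hκc]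
        exact (((continuousAt_inv₀ hκ0.ne').tendsto).rpow_const
          (Or.inl (inv_pos.2 hκ0).ne')).mono_left nhdsWithin_le_nhds
      obtain ⟨s, ⟨hs1, hs2⟩, hs3⟩ := (((hcont.eventually (gt_mem_nhds ha)).and
        self_mem_nhdsWithin).and (mem_nhdsWithin_of_mem_nhds (lt_mem_nhds hκ0))).exists
      have hs2' : s < κ := hs2
      have hs0 : 0 < s := hs3
      have h3 := (hW.comp (hscale 2 (by norm_num))).eventually (lt_mem_nhds hs2')
      have h5 : Tendsto (fun M : ℕ => s⁻¹ ^ β * (G c₀ M / Real.log M) ^ β +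
          Real.log 2 / (Real.log (M : ℝ)) ^ β) atTop (𝓝 (s⁻¹ ^ β * 1 ^ β + 0)) :=
        (((G_div c₀).rpow_const (Or.inl one_ne_zero)).const_mul _).add
          (tendsto_const_nhds.div_atTop hpowM)
      rw [Real.one_rpow, mul_one, add_zero] at h5
      have h2d : ∀ᶠ M in atTop, 2 * δ M ≤ 1 := (hscale 2 (by norm_num)).eventually hα1
      have hGpos : ∀ᶠ M : ℕ in atTop, 0 < G c₀ M / Real.log M :=
        (G_div c₀).eventually (lt_mem_nhds one_pos)
      filter_upwards [h3, h2d, h5.eventually (gt_mem_nhds hs1), eventually_ge_atTop 2,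
        hlogM.eventually_gt_atTop 0, hpowM.eventually_gt_atTop 0,
        hEinf.eventually_gt_atTop (Real.log 2), hGpos] with M h3 h4 h5 h6 h7 h8 h9 h10
      simp only [Function.comp_apply] at h3
      have hd := hδ0 M (by omega)
      have e : Real.log (1 / (2 * δ M)) = Real.log (1 / δ M) - Real.log 2 := by
        rw [← Real.log_div (by positivity) (by norm_num)]
        congr 1
        field_simp
      have hW1 := (W_le hδ0 hB hc₀ h1 h6 (α := 2 * δ M) le_rfl h4).2
      have hpos : 0 < Real.log (1 / δ M) - Real.log 2 := by linarith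
      rw [e, lt_div_iff₀ (Real.rpow_pos_of_pos hpos _)] at h3
      have hG0 : 0 < G c₀ M := by
        have := mul_pos h10 h7
        rwa [div_mul_cancel₀ _ h7.ne'] at this
      have h11 : (Real.log (1 / δ M) - Real.log 2) ^ (1 / β) ≤ s⁻¹ * G c₀ M := by
        rw [le_inv_mul_iff₀ hs0]
        linarith
      have h12 : Real.log (1 / δ M) - Real.log 2 ≤ (s⁻¹ * G c₀ M) ^ β := by
        have := Real.rpow_le_rpow (Real.rpow_nonneg hpos.le _) h11 hβ.le
        rwa [← Real.rpow_mul hpos.le, one_div_mul_cancel hβ.ne', Real.rpow_one] at this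
      rw [Real.mul_rpow (by positivity) hG0.le] at h12
      refine lt_of_le_of_lt ?_ h5
      rw [div_le_iff₀ h8, add_mul, div_mul_cancel₀ _ h8.ne', Real.div_rpow hG0.le h7.le,
        mul_assoc, div_mul_cancel₀ _ h8.ne']
      linarith

end

end Run7.h605.Var
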