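import Pool.Agent.Run7.h605.Var.Core
import Pool.Agent.Helper602.MK.J5c

/-!
# The lower bound for the number of progressions
-/

set_option autoImplicit false

open Finset

namespace Run7.h605.Var

open Pool.Agent.H617R3.AP

theorem card_rough (P K : ℕ) :
    ((Ico 1 (1 + P * K)).filter (fun q => P.Coprime q)).card = P.totient * K := by
  induction K with
  | zero => simp
  | succ K ih =>
    have h1 : Ico 1 (1 + P * (K + 1)) = Ico 1 (1 + P * K) ∪ Ico (1 + P * K) (1 + P * K + P) := by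
      rw [Ico_union_Ico_eq_Ico (by omega) (by omega)]
      congr 1
      ring
    have h2 : Disjoint ((Ico 1 (1 + P * K)).filter (fun q => P.Coprime q))
        ((Ico (1 + P * K) (1 + P * K + P)).filter (fun q => P.Coprime q)) :=
      disjoint_filter_filter (Ico_disjoint_Ico_consecutive _ _ _)
    rw [h1, filter_union, card_union_of_disjoint h2, ih, Nat.filter_coprime_Ico_eq_totient]
    ring

/-- the proportion of the integers without prime factors up to `M` -/
theorem totient_primorial : ∃ c : ℝ, 0 < c ∧ ∀ M : ℕ, 2 ≤ M →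
    c * (primorial M : ℝ) / Real.log M ≤ ((primorial M).totient : ℝ) := by
  obtain ⟨K, hK, h⟩ := Pool.Agent.Helper602.MK.N_J5c.prod_primes_le
  refine ⟨1 / K, by positivity, fun M hM => ?_⟩
  have hMr : (2 : ℝ) ≤ M := by exact_mod_cast hM
  have hlog : 0 < Real.log M := Real.log_pos (by linarith)
  have hP : 0 < primorial M := primorial_pos M
  have hPr : (0 : ℝ) < (primorial M : ℝ) := by exact_mod_cast hP
  have hpf : (primorial M).primeFactors = (Icc 1 M).filter Nat.Prime := by
    ext p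
    rw [Nat.mem_primeFactors, mem_filter, mem_Icc]
    constructor
    · rintro ⟨h1, h2, -⟩
      unfold primorial at h2
      rw [Prime.dvd_finsetProd_iff h1.prime] at h2
      obtain ⟨q, hq, hpq⟩ := h2
      rw [mem_filter, mem_range] at hq
      have := (Nat.prime_dvd_prime_iff_eq h1 hq.2).1 hpq
      subst this
      exact ⟨⟨h1.one_lt.le, by omega⟩, h1⟩
    · rintro ⟨⟨-, h2⟩, h3⟩
      refine ⟨h3, ?_, hP.ne'⟩
      unfold primorial
      exact dvd_prod_of_mem (fun p => p) (by rw [mem_filter, mem_range]; exact ⟨by omega, h3⟩)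
  have e := Nat.totient_eq_mul_prod_factors (primorial M)
  rw [hpf] at e
  have e2 : ((primorial M).totient : ℝ) =
      (primorial M : ℝ) * ∏ p ∈ (Icc 1 M).filter Nat.Prime, (1 - (p : ℝ)⁻¹) := by
    have e3 := congrArg (fun x : ℚ => (x : ℝ)) e
    push_cast at e3
    exact e3
  have h1 := h M hM
  have hpos : 0 < ∏ p ∈ (Icc 1 M).filter Nat.Prime, (1 - (p : ℝ)⁻¹) := by
    refine prod_pos fun p hp => ?_
    have h2 : (2 : ℝ) ≤ p := by exact_mod_cast (mem_filter.1 hp).2.two_le
    have : (p : ℝ)⁻¹ < 1 := inv_lt_one_of_one_lt₀ (by linarith)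
    linarith
  rw [prod_inv_distrib] at h1
  have h2 : 1 ≤ K * Real.log M * ∏ p ∈ (Icc 1 M).filter Nat.Prime, (1 - (p : ℝ)⁻¹) := by
    rwa [inv_le_iff_one_le_mul₀ hpos] at h1
  rw [e2, div_le_iff₀ hlog]
  rw [one_div, inv_mul_le_iff₀ hK]
  nlinarith

theorem card_shift {k : ℕ} (hk : 2 ≤ k) (A : Finset ℕ) (t : ℕ) :
    (AP k (A.image (fun a => a + t))).card ≤ (AP k A).card := by
  refine card_le_card_of_injOn (fun p => (p.1 - t, p.2)) ?_ ?_
  · intro p hp
    have hp' := (mem_AP hk).1 (mem_coe.1 hp)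
    rw [mem_coe, mem_AP hk]
    refine ⟨hp'.1, fun i hi => ?_⟩
    have h0 := hp'.2 0 (by omega)
    have h1 := hp'.2 i hi
    rw [mem_image] at h0 h1
    obtain ⟨a, ha, ha'⟩ := h0
    obtain ⟨b, hb, hb'⟩ := h1
    simp only
    have : p.1 - t + i * p.2 = b := by omega
    rw [this]; exact hb
  · intro p hp p' hp' h
    have h1 := ((mem_AP hk).1 (mem_coe.1 hp)).2 0 (by omega)
    have h2 := ((mem_AP hk).1 (mem_coe.1 hp')).2 0 (by omega)
    rw [mem_image] at h1 h2
    obtain ⟨a, ha, ha'⟩ := h1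
    obtain ⟨b, hb, hb'⟩ := h2
    simp only [Prod.mk.injEq] at h
    ext
    · omega
    · exact h.2

theorem lower : ∃ c : ℝ, 0 < c ∧ ∀ k : ℕ, 2 ≤ k → ∀ M : ℕ, 2 ≤ M → ∀ N : ℕ, ∀ ε : ℝ, 0 < ε →
    2 * (M : ℝ) * 4 ^ M ≤ ε * N → ∀ A : Finset ℕ, A ⊆ Icc 1 N →
    (1 + ε) * ((r k M : ℝ) / M) * N ≤ A.card →
    c * ε ^ 2 * ((r k M : ℝ) / M) / (M * Real.log M) * (N : ℝ) ^ 2 ≤ (AP k A).card := by
  classical
  obtain ⟨c, hc, hφ⟩ := totient_primorial
  refine ⟨c / 8, by positivity, fun k hk M hM N ε hε hN A hA hcard => ?_⟩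
  have hMr : (2 : ℝ) ≤ M := by exact_mod_cast hM
  have hM0 : (0 : ℝ) < M := by linarith
  have hlog : 0 < Real.log M := Real.log_pos (by linarith)
  set P := primorial M with hPdef
  have hP : 0 < P := primorial_pos M
  have hPr : (0 : ℝ) < (P : ℝ) := by exact_mod_cast hP
  have hP4 : (P : ℝ) ≤ 4 ^ M := by exact_mod_cast primorial_le_four_pow M
  set x : ℝ := ε * N / (2 * M * P) with hx
  have hden : (0 : ℝ) < 2 * M * P := by positivity
  have hx1 : 1 ≤ x := by
    rw [hx, le_div_iff₀ hden, one_mul]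
    refine le_trans ?_ hN
    exact mul_le_mul_of_nonneg_left hP4 (by positivity)
  set K := ⌊x⌋₊ with hKdef
  have hK1 : (K : ℝ) ≤ x := Nat.floor_le (by linarith)
  have hK2 : x / 2 ≤ K := by
    have h1 : x < (K : ℝ) + 1 := Nat.lt_floor_add_one x
    have h2 : 1 ≤ K := by
      rw [hKdef, Nat.one_le_floor_iff]
      exact hx1
    have h3 : (1 : ℝ) ≤ K := by exact_mod_cast h2
    linarith
  set Q := P * K with hQ
  set S := (Ico 1 (1 + P * K)).filter (fun q => P.Coprime q) with hS
  have hScard : S.card = P.totient * K := card_rough P K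
  set A' := A.image (fun a => a + Q * M) with hA'
  have hA'sub : A' ⊆ Ioc (Q * M) (N + Q * M) := by
    intro a ha
    rw [hA', mem_image] at ha
    obtain ⟨b, hb, rfl⟩ := ha
    have := hA hb
    rw [mem_Icc] at this
    rw [mem_Ioc]
    omega
  have hA'card : A'.card = A.card :=
    card_image_of_injective _ (fun a b h => by simpa using h)
  have hS1 : ∀ q ∈ S, 1 ≤ q ∧ q ≤ Q := by
    intro q hq
    rw [hS, mem_filter, mem_Ico] at hq
    rw [hQ]
    omega
  have hcop : ∀ q ∈ S, ∀ j : ℕ, 1 ≤ j → j < M → q.Coprime j := by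
    intro q hq j hj hjM
    rw [hS, mem_filter] at hq
    refine Nat.coprime_of_dvd ?_
    intro p hp hpq hpj
    have h1 : p ≤ j := Nat.le_of_dvd (by omega) hpj
    have h2 : p ∣ P := by
      rw [hPdef]
      unfold primorial
      exact dvd_prod_of_mem (fun p => p) (by rw [mem_filter, mem_range]; exact ⟨by omega, hp⟩)
    have h3 := Nat.dvd_gcd h2 hpq
    rw [Nat.Coprime.gcd_eq_one hq.2] at h3
    exact hp.one_lt.ne' (Nat.dvd_one.1 h3)
  have hSinj : ∀ q ∈ S, ∀ q' ∈ S, ∀ j j' : ℕ, 1 ≤ j → j < M → 1 ≤ j' → j' < M →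
      q * j = q' * j' → q = q' := by
    intro q hq q' hq' j j' hj hjM hj' hjM' h
    have h1 : q ∣ q' := (hcop q hq j' hj' hjM').dvd_of_dvd_mul_right (Dvd.intro _ h)
    have h2 : q' ∣ q := (hcop q' hq' j hj hjM).dvd_of_dvd_mul_right (Dvd.intro _ h.symm)
    exact Nat.dvd_antisymm h1 h2
  have hcore := core hk hA'sub hS1 hSinj
  rw [hA'card, hScard] at hcore
  have hsh := card_shift hk A (Q * M)
  have hcore2 : P.totient * K * (M * A.card) ≤
      M * (AP k A).card + P.totient * K * ((N + Q * M) * r k M) := by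
    exact hcore.trans (Nat.add_le_add_right (Nat.mul_le_mul_left M hsh) _)
  have hcore3 : (P.totient : ℝ) * K * (M * A.card) ≤
      M * (AP k A).card + P.totient * K * ((N + P * K * M) * r k M) := by
    have := (Nat.cast_le (α := ℝ)).2 hcore2
    rw [hQ] at this
    push_cast at this
    exact this
  have hr0 : (0 : ℝ) ≤ r k M := Nat.cast_nonneg _
  have h5 : (1 + ε) * (r k M : ℝ) * N ≤ M * A.card := by
    have e : (1 + ε) * (r k M : ℝ) * N = M * ((1 + ε) * ((r k M : ℝ) / M) * N) := by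
      field_simp
    rw [e]
    exact mul_le_mul_of_nonneg_left hcard hM0.le
  have h6 : (P : ℝ) * K * M ≤ ε * N / 2 := by
    calc (P : ℝ) * K * M ≤ P * x * M := by gcongr
      _ = ε * N / 2 := by rw [hx]; field_simp
  have hφK : (0 : ℝ) ≤ (P.totient : ℝ) * K := by positivity
  have h7 : (P.totient : ℝ) * K * (r k M * (ε * N / 2)) ≤ M * (AP k A).card := by
    have h8 : (P.totient : ℝ) * K * ((1 + ε) * (r k M : ℝ) * N) ≤
        P.totient * K * (M * A.card) := mul_le_mul_of_nonneg_left h5 hφK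
    have h9 : (P.totient : ℝ) * K * ((N + P * K * M) * r k M) ≤
        P.totient * K * ((N + ε * N / 2) * r k M) := by
      apply mul_le_mul_of_nonneg_left _ hφK
      apply mul_le_mul_of_nonneg_right _ hr0
      linarith
    nlinarith
  have hφ1 := hφ M hM
  have h10 : c * (P : ℝ) / Real.log M * (x / 2) ≤ (P.totient : ℝ) * K := by
    apply mul_le_mul hφ1 hK2 (by positivity) (by positivity)
  have h11 : c * (P : ℝ) / Real.log M * (x / 2) * (r k M * (ε * N / 2)) ≤ M * (AP k A).card :=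
    (mul_le_mul_of_nonneg_right h10 (by positivity)).trans h7
  have e : c * (P : ℝ) / Real.log M * (x / 2) * (r k M * (ε * N / 2)) =
      M * (c / 8 * ε ^ 2 * ((r k M : ℝ) / M) / (M * Real.log M) * (N : ℝ) ^ 2) := by
    rw [hx]
    field_simp
    ring
  rw [e] at h11
  exact le_of_mul_le_mul_left h11 hM0

end Run7.h605.Var
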