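import Pool.Agent.Run7.h605.Var.Core

/-!
# Dense sets with few progressions
-/

set_option autoImplicit false

open Finset

namespace Run7.h605.Var

open Pool.Agent.H617R3.AP

/-- the blow-up: half of the blocks of length `L` indexed by a progression free set -/
theorem blowup {k : ℕ} (hk : 3 ≤ k) {B : Finset ℕ} (hB : APFree k B) {L h a d : ℕ}
    (hh : 2 * h < L + 2) (hd : 1 ≤ d)
    (hA : ∀ i < k, 1 ≤ a + i * d ∧ (a + i * d - 1) / L + 1 ∈ B ∧ (a + i * d - 1) % L < h) :
    d < h := by
  set b : ℕ → ℕ := fun i => (a + i * d - 1) / L with hb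
  set u : ℕ → ℕ := fun i => (a + i * d - 1) % L with hu
  have ha : 1 ≤ a := by simpa using (hA 0 (by omega)).1
  have hu' : ∀ i < k, u i < h := fun i hi => (hA i hi).2.2
  have hdec : ∀ i, L * b i + u i + 1 = a + i * d := by
    intro i
    have h1 : L * b i + u i = a + i * d - 1 := Nat.div_add_mod _ _
    have : 0 ≤ i * d := Nat.zero_le _
    omega
  have hstep : ∀ i, i + 2 < k → b i + b (i + 2) = 2 * b (i + 1) := by
    intro i hi
    have e0 := hdec i
    have e1 := hdec (i + 1)
    have e2 := hdec (i + 2)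
    have h0 := hu' i (by omega)
    have h1 := hu' (i + 1) (by omega)
    have h2 := hu' (i + 2) (by omega)
    have e3 : L * b i + u i + (L * b (i + 2) + u (i + 2)) = 2 * (L * b (i + 1) + u (i + 1)) := by
      have : (i + 1) * d = i * d + d := by ring
      have : (i + 2) * d = i * d + 2 * d := by ring
      omega
    rcases lt_trichotomy (b i + b (i + 2)) (2 * b (i + 1)) with h3 | h3 | h3
    · exfalso
      have h4 : L * (b i + b (i + 2) + 1) ≤ L * (2 * b (i + 1)) := Nat.mul_le_mul_left L h3
      have e4 : L * (b i + b (i + 2) + 1) = L * b i + L * b (i + 2) + L := by ring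
      have e5 : L * (2 * b (i + 1)) = 2 * (L * b (i + 1)) := by ring
      omega
    · exact h3
    · exfalso
      have h4 : L * (2 * b (i + 1) + 1) ≤ L * (b i + b (i + 2)) := Nat.mul_le_mul_left L h3
      have e4 : L * (b i + b (i + 2)) = L * b i + L * b (i + 2) := by ring
      have e5 : L * (2 * b (i + 1) + 1) = 2 * (L * b (i + 1)) + L := by ring
      omega
  have hmono : b 0 ≤ b 1 := by
    rw [hb]
    simp only
    apply Nat.div_le_div_right
    omega
  obtain ⟨e, he⟩ := Nat.exists_eq_add_of_le hmono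
  have hlin : ∀ i, i + 1 < k → b i = b 0 + i * e ∧ b (i + 1) = b 0 + (i + 1) * e := by
    intro i
    induction i with
    | zero => intro _; simp [he]
    | succ i ih =>
      intro hi
      obtain ⟨h1, h2⟩ := ih (by omega)
      refine ⟨h2, ?_⟩
      have h3 := hstep i (by omega)
      have e1 : (i + 1) * e = i * e + e := by ring
      have e2 : (i + 1 + 1) * e = i * e + 2 * e := by ring
      have h4 : b (i + 1 + 1) = b (i + 2) := rfl
      rw [h4]
      omega
  have he0 : e = 0 := by
    by_contra hne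
    refine hB (b 0 + 1) e (by omega) fun i hi => ?_
    have h1 : b i = b 0 + i * e := by
      rcases i with _ | i
      · simp
      · exact (hlin i (by omega)).2
    have h2 := (hA i hi).2.1
    have e1 : b 0 + 1 + i * e = b i + 1 := by omega
    rw [e1]
    exact h2
  have e0 := hdec 0
  have e1 := hdec 1
  have h1 := hu' 1 (by omega)
  rw [he, he0] at e1
  simp only [add_zero] at e1
  omega

theorem upper {k : ℕ} (hk : 3 ≤ k) {M N : ℕ} (hM : 1 ≤ M) (hN : 3 * M ≤ N) :
    ∃ A : Finset ℕ, A ⊆ Icc 1 N ∧ (r k M : ℝ) / M / 3 * N ≤ A.card ∧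
      ((AP k A).card : ℝ) ≤ (r k M : ℝ) / M / (2 * M) * (N : ℝ) ^ 2 := by
  classical
  obtain ⟨B, hB1, hB2, hB3⟩ := exists_opt (k := k) (by omega) M
  set L := N / M with hL
  set h := (L + 1) / 2 with hh
  have hL3 : 3 ≤ L := by
    rw [hL, Nat.le_div_iff_mul_le (by omega)]
    exact hN
  have hLM : L * M ≤ N := Nat.div_mul_le_self N M
  have hh1 : 2 * h ≤ L + 1 := by omega
  have hh2 : L ≤ 2 * h := by omega
  set A := (Icc 1 N).filter (fun n => (n - 1) / L + 1 ∈ B ∧ (n - 1) % L < h) with hA
  have hcard1 : r k M * h ≤ A.card := by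
    have e : (B ×ˢ range h).card = r k M * h := by rw [card_product, hB3, card_range]
    rw [← e]
    refine card_le_card_of_injOn (fun p => L * (p.1 - 1) + p.2 + 1) ?_ ?_
    · intro p hp
      rw [mem_coe, mem_product, mem_range] at hp
      have h1 := hB1 hp.1
      rw [mem_Icc] at h1
      have h2 : L * (p.1 - 1) + L ≤ L * M := by
        have e1 : L * (p.1 - 1) + L = L * (p.1 - 1 + 1) := by ring
        rw [e1]
        exact Nat.mul_le_mul_left L (by omega)
      have h3 : L * M = M * L := Nat.mul_comm _ _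
      have h4 : p.2 < L := by omega
      have h5 : L * (p.1 - 1) + p.2 + 1 - 1 = p.2 + L * (p.1 - 1) := by omega
      rw [mem_coe, hA, mem_filter, mem_Icc]
      simp only
      rw [h5, Nat.add_mul_div_left _ _ (by omega), Nat.add_mul_mod_self_left,
        Nat.div_eq_of_lt h4, Nat.mod_eq_of_lt h4]
      have h6 : 0 + (p.1 - 1) + 1 = p.1 := by omega
      rw [h6]
      exact ⟨⟨by omega, by omega⟩, hp.1, hp.2⟩
    · intro p hp q hq hpq
      rw [mem_coe, mem_product, mem_range] at hp hq
      have h1 := hB1 hp.1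
      have h2 := hB1 hq.1
      rw [mem_Icc] at h1 h2
      simp only at hpq
      have h3 : L * (p.1 - 1) + p.2 = L * (q.1 - 1) + q.2 := by omega
      have h4 : p.2 < L := by omega
      have h5 : q.2 < L := by omega
      have h6 : (p.2 + L * (p.1 - 1)) % L = (q.2 + L * (q.1 - 1)) % L := by
        rw [Nat.add_comm, h3, Nat.add_comm]
      rw [Nat.add_mul_mod_self_left, Nat.add_mul_mod_self_left, Nat.mod_eq_of_lt h4,
        Nat.mod_eq_of_lt h5] at h6
      have h7 : L * (p.1 - 1) = L * (q.1 - 1) := by omega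
      have h8 := Nat.eq_of_mul_eq_mul_left (by omega : 0 < L) h7
      ext
      · omega
      · exact h6
  have hcard2 : A.card ≤ r k M * h := by
    have e : (B ×ˢ range h).card = r k M * h := by rw [card_product, hB3, card_range]
    rw [← e]
    refine card_le_card_of_injOn (fun n => ((n - 1) / L + 1, (n - 1) % L)) ?_ ?_
    · intro n hn
      rw [mem_coe, hA, mem_filter] at hn
      rw [mem_coe, mem_product, mem_range]
      exact hn.2
    · intro n hn m hm hnm
      rw [mem_coe, hA, mem_filter, mem_Icc] at hn hm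
      simp only [Prod.mk.injEq] at hnm
      have h1 := Nat.div_add_mod (n - 1) L
      have h2 := Nat.div_add_mod (m - 1) L
      have h3 : (n - 1) / L = (m - 1) / L := by omega
      rw [h3, hnm.2] at h1
      omega
  have hAP : (AP k A).card ≤ A.card * h := by
    have e : (A ×ˢ range h).card = A.card * h := by rw [card_product, card_range]
    rw [← e]
    apply card_le_card
    intro p hp
    have hp' := (mem_AP (by omega)).1 hp
    rw [mem_product, mem_range]
    refine ⟨by simpa using hp'.2 0 (by omega), ?_⟩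
    refine blowup hk hB2 (L := L) (a := p.1) (by omega) hp'.1 fun i hi => ?_
    have h1 := hp'.2 i hi
    rw [hA, mem_filter, mem_Icc] at h1
    exact ⟨h1.1.1, h1.2⟩
  have hMr : (0 : ℝ) < M := by exact_mod_cast (by omega : 0 < M)
  have hr0 : (0 : ℝ) ≤ r k M := Nat.cast_nonneg _
  have hNr : 3 * (M : ℝ) ≤ N := by exact_mod_cast hN
  have hNM : 3 ≤ (N : ℝ) / M := by rw [le_div_iff₀ hMr]; exact hNr
  have hL1 : (L : ℝ) ≤ (N : ℝ) / M := Nat.cast_div_le
  have hL2 : (N : ℝ) / M - 1 ≤ L := by
    have h1 : N < (L + 1) * M := by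
      have := Nat.lt_div_mul_add (a := N) (b := M) (by omega)
      rw [← hL] at this
      have e : (L + 1) * M = L * M + M := by ring
      omega
    have h2 : (N : ℝ) < ((L : ℝ) + 1) * M := by exact_mod_cast h1
    have h3 : (N : ℝ) / M < (L : ℝ) + 1 := by rw [div_lt_iff₀ hMr]; exact h2
    linarith
  have hhr1 : (h : ℝ) ≤ ((L : ℝ) + 1) / 2 := by
    have : (2 : ℝ) * h ≤ L + 1 := by exact_mod_cast hh1
    linarith
  have hhr2 : (L : ℝ) / 2 ≤ h := by
    have : (L : ℝ) ≤ 2 * h := by exact_mod_cast hh2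
    linarith
  refine ⟨A, filter_subset _ _, ?_, ?_⟩
  · have h1 : (r k M : ℝ) * h ≤ A.card := by exact_mod_cast hcard1
    refine le_trans ?_ h1
    have e : (r k M : ℝ) / M / 3 * N = r k M * ((N : ℝ) / M / 3) := by field_simp
    rw [e]
    apply mul_le_mul_of_nonneg_left _ hr0
    linarith
  · have h1 : ((AP k A).card : ℝ) ≤ (r k M : ℝ) * h * h := by
      have h2 : (AP k A).card ≤ r k M * h * h :=
        hAP.trans (Nat.mul_le_mul_right h hcard2)
      exact_mod_cast h2
    refine h1.trans ?_
    have e : (r k M : ℝ) / M / (2 * M) * (N : ℝ) ^ 2 = r k M * (((N : ℝ) / M) ^ 2 / 2) := by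
      field_simp
    rw [e, mul_assoc]
    apply mul_le_mul_of_nonneg_left _ hr0
    have h3 : (h : ℝ) ≤ 2 / 3 * ((N : ℝ) / M) := by linarith
    have h4 : (0 : ℝ) ≤ h := Nat.cast_nonneg _
    nlinarith

end Run7.h605.Var
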