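import Pool.Agent.Run7.h605.Var.Lower
import Pool.Agent.Run7.h605.Var.Upper
import Pool.Agent.Run7.h605.Var.Equiv

/-!
# The Varnavides function
-/

set_option autoImplicit false

open Finset Filter Topology

namespace Run7.h605.Var

open Pool.Agent.H617R3.AP

/-- The number of progressions `a, a + d, ..., a + (k - 1) d` with `d ≥ 1` all of whose terms lie in `A`. -/
noncomputable def progs (k : ℕ) (A : Finset ℕ) : ℕ :=
  {p : ℕ × ℕ | 1 ≤ p.2 ∧ ∀ i < k, p.1 + i * p.2 ∈ A}.ncard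

/-- The least number of `k`-term progressions in a subset of `{1, ..., N}` with at least `α N` elements. -/
noncomputable def least (k N : ℕ) (α : ℝ) : ℕ :=
  sInf {t : ℕ | ∃ A ⊆ Icc 1 N, α * N ≤ (A.card : ℝ) ∧ progs k A = t}

/-- The Varnavides function: the lower limit of `least k N α / N ^ 2`. -/
noncomputable def V (k : ℕ) (α : ℝ) : ℝ :=
  liminf (fun N : ℕ => (least k N α : ℝ) / (N : ℝ) ^ 2) atTop

theorem progs_eq {k : ℕ} (hk : 2 ≤ k) (A : Finset ℕ) : progs k A = (AP k A).card := by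
  unfold progs
  have : {p : ℕ × ℕ | 1 ≤ p.2 ∧ ∀ i < k, p.1 + i * p.2 ∈ A} = ↑(AP k A) := by
    ext p
    rw [mem_coe, mem_AP hk]
    rfl
  rw [this, Set.ncard_coe_finset]

theorem progs_le {k : ℕ} (hk : 2 ≤ k) {N : ℕ} {A : Finset ℕ} (hA : A ⊆ Icc 1 N) :
    progs k A ≤ N ^ 2 := by
  rw [progs_eq hk]
  have e : (Icc 1 N ×ˢ Icc 1 N).card = N ^ 2 := by
    rw [card_product, Nat.card_Icc]
    simp [sq]
  rw [← e]
  apply card_le_card
  intro p hp
  rw [mem_AP hk] at hp
  have h0 := hA (hp.2 0 (by omega))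
  have h1 := hA (hp.2 1 (by omega))
  rw [mem_Icc] at h0 h1
  rw [mem_product, mem_Icc, mem_Icc]
  exact ⟨⟨by omega, by omega⟩, hp.1, by omega⟩

theorem least_le_sq {k : ℕ} (hk : 2 ≤ k) (N : ℕ) (α : ℝ) : least k N α ≤ N ^ 2 := by
  unfold least
  rcases Set.eq_empty_or_nonempty {t : ℕ | ∃ A ⊆ Icc 1 N, α * N ≤ (A.card : ℝ) ∧ progs k A = t}
    with h | h
  · rw [h]; simp
  · obtain ⟨A, hA, -, h2⟩ := Nat.sInf_mem h
    rw [← h2]
    exact progs_le hk hA

theorem least_le {k N : ℕ} {α : ℝ} {A : Finset ℕ} (hA : A ⊆ Icc 1 N)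
    (h : α * N ≤ (A.card : ℝ)) : least k N α ≤ progs k A :=
  Nat.sInf_le ⟨A, hA, h, rfl⟩

theorem le_least {k N : ℕ} {α x : ℝ} (hα : α ≤ 1)
    (h : ∀ A ⊆ Icc 1 N, α * N ≤ (A.card : ℝ) → x ≤ progs k A) : x ≤ least k N α := by
  have hne : {t : ℕ | ∃ A ⊆ Icc 1 N, α * N ≤ (A.card : ℝ) ∧ progs k A = t}.Nonempty := by
    refine ⟨_, Icc 1 N, subset_rfl, ?_, rfl⟩
    rw [Nat.card_Icc, Nat.add_sub_cancel]
    have : (0 : ℝ) ≤ N := Nat.cast_nonneg N
    nlinarith
  obtain ⟨A, hA, h1, h2⟩ := Nat.sInf_mem hne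
  unfold least
  rw [← h2]
  exact h A hA h1

theorem bdd_ge (k : ℕ) (α : ℝ) :
    IsBoundedUnder (· ≥ ·) atTop (fun N : ℕ => (least k N α : ℝ) / (N : ℝ) ^ 2) :=
  isBoundedUnder_of ⟨0, fun N => by positivity⟩

theorem bdd_le {k : ℕ} (hk : 2 ≤ k) (α : ℝ) :
    IsBoundedUnder (· ≤ ·) atTop (fun N : ℕ => (least k N α : ℝ) / (N : ℝ) ^ 2) := by
  refine isBoundedUnder_of ⟨1, fun N => ?_⟩
  apply div_le_one_of_le₀ _ (by positivity)
  exact_mod_cast least_le_sq hk N α

theorem V_nonneg {k : ℕ} (hk : 2 ≤ k) (α : ℝ) : 0 ≤ V k α :=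
  le_liminf_of_le (bdd_le hk α).isCoboundedUnder_ge (Eventually.of_forall fun N => by positivity)

theorem main :
    (∃ c : ℝ, 0 < c ∧ ∀ k M N : ℕ, 3 ≤ k → 2 ≤ M →
      (∀ ε : ℝ, 0 < ε → 2 * (M : ℝ) * 4 ^ M ≤ ε * N → ∀ A ⊆ Icc 1 N,
        (1 + ε) * ((r k M : ℝ) / M) * N ≤ (A.card : ℝ) →
        c * ε ^ 2 * ((r k M : ℝ) / M) / (M * Real.log M) * (N : ℝ) ^ 2 ≤ (progs k A : ℝ)) ∧
      (3 * M ≤ N → ∃ A ⊆ Icc 1 N, (r k M : ℝ) / M / 3 * N ≤ (A.card : ℝ) ∧
        (progs k A : ℝ) ≤ (r k M : ℝ) / M / (2 * M) * (N : ℝ) ^ 2)) ∧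
    ∀ k : ℕ, 3 ≤ k → ∀ β c : ℝ, 0 < β → 0 < c →
      (Tendsto (fun N : ℕ => Real.log (N / r k N) / Real.log N ^ β) atTop (𝓝 c) ↔
        Tendsto (fun α : ℝ => Real.log (1 / V k α) / Real.log (1 / α) ^ (1 / β)) (𝓝[>] 0)
          (𝓝 ((1 / c) ^ (1 / β)))) := by
  obtain ⟨c₀, hc₀, hlow⟩ := lower
  refine ⟨⟨c₀, hc₀, fun k M N hk hM => ⟨?_, ?_⟩⟩, ?_⟩
  · intro ε hε hN A hA h
    rw [progs_eq (by omega)]
    exact hlow k (by omega) M hM N ε hε hN A hA h
  · intro hN
    obtain ⟨A, hA, h1, h2⟩ := upper hk (by omega) hN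
    refine ⟨A, hA, h1, ?_⟩
    rw [progs_eq (by omega)]
    exact h2
  · intro k hk β c hβ hc
    have key := equiv (δ := fun M => d k M) (V := V k) (c₀ := c₀) (β := β) (c := c)
      (fun M hM => d_pos hk hM) ?_ ?_ hc₀ (V_nonneg (by omega)) ?_ ?_ hβ hc
    · rw [← key]
      have e : (fun N : ℕ => Real.log (N / r k N) / Real.log N ^ β) =
          fun M : ℕ => Real.log (1 / d k M) / (Real.log M) ^ β := by
        funext N
        unfold d
        rw [one_div_div]
      rw [e]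
    · intro M
      unfold d
      apply div_le_one_of_le₀ _ (Nat.cast_nonneg M)
      exact_mod_cast r_le_self k M
    · intro M hM
      have hMr : (0 : ℝ) < M := by exact_mod_cast hM
      have h1 := behrend hk M
      have h2 : Real.exp (-4 * √(Real.log M)) ≤ d k M := by
        unfold d
        rw [le_div_iff₀ hMr]
        linarith
      have h3 := Real.log_le_log (Real.exp_pos _) h2
      rw [Real.log_exp] at h3
      rw [one_div, Real.log_inv]
      linarith
    · intro M hM α hα hα1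
      have hMr : (2 : ℝ) ≤ M := by exact_mod_cast hM
      have hev : ∀ᶠ N : ℕ in atTop, 2 * (M : ℝ) * 4 ^ M ≤ 1 * N := by
        have := tendsto_natCast_atTop_atTop.eventually_ge_atTop (2 * (M : ℝ) * 4 ^ M)
        simpa using this
      refine le_liminf_of_le (bdd_le (by omega) α).isCoboundedUnder_ge ?_
      filter_upwards [hev, eventually_ge_atTop 1] with N hN hN1
      have hNr : (0 : ℝ) < N := by exact_mod_cast hN1
      rw [le_div_iff₀ (by positivity)]
      apply le_least hα1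
      intro A hA hcard
      rw [progs_eq (by omega)]
      have h1 := hlow k (by omega) M hM N 1 one_pos hN A hA (by
        refine le_trans ?_ hcard
        apply mul_le_mul_of_nonneg_right _ hNr.le
        have : (1 + 1) * ((r k M : ℝ) / M) = 2 * d k M := by unfold d; ring
        rw [this]; exact hα)
      simpa [d] using h1
    · intro M hM α hα
      have hMr : (2 : ℝ) ≤ M := by exact_mod_cast hM
      refine liminf_le_of_frequently_le ?_ (bdd_ge k α)
      apply Eventually.frequently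
      filter_upwards [eventually_ge_atTop (3 * M), eventually_ge_atTop 1] with N hN hN1
      have hNr : (0 : ℝ) < N := by exact_mod_cast hN1
      obtain ⟨A, hA, h1, h2⟩ := upper hk (M := M) (by omega) hN
      rw [div_le_iff₀ (by positivity)]
      have h3 : least k N α ≤ progs k A := by
        apply least_le hA
        refine le_trans ?_ h1
        apply mul_le_mul_of_nonneg_right _ hNr.le
        exact hα
      rw [progs_eq (by omega)] at h3
      have h4 : (least k N α : ℝ) ≤ ((AP k A).card : ℝ) := by exact_mod_cast h3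
      exact h4.trans h2

end Run7.h605.Var
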